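import Pool.Agent.N592.GF.TORA

/-!
Project GF (helper754), job TOR, second part (helper592): toric places of rational function fields.
-/

set_option autoImplicit false

open MvPolynomial FF IsDedekindDomain

namespace Pool.Agent.N592.GF

section toric

variable {k : Type*} [Field k]

theorem algMap {k F : Type*} [Field k] [Field F] [Algebra k F] (c : k) :
    algebraMap k (HahnSeries ℤ F) c = HahnSeries.C (algebraMap k F c) := by
  rw [HahnSeries.algebraMap_apply', PowerSeries.algebraMap_apply, HahnSeries.ofPowerSeries_C]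

/-- the place of the Laurent series -/
noncomputable def hsPlace (k F : Type*) [Field k] [Field F] [Algebra k F] :
    Place k (HahnSeries ℤ F) where
  ord f := f.order
  ord_zero := HahnSeries.order_zero
  ord_mul := fun hf hg => HahnSeries.order_mul hf hg
  ord_add := fun hf hg hfg => HahnSeries.min_order_le_order_add hfg
  ord_const := by
    intro c hc
    rw [algMap]
    exact HahnSeries.order_C
  surj := ⟨HahnSeries.single 1 1, by simp, by
    rw [HahnSeries.order_single one_ne_zero]⟩

variable {w : ℕ} (a : Fin w → ℤ)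

/-- the substitution of weighted variables -/
noncomputable def sub0 (k : Type*) [Field k] {w : ℕ} (a : Fin w → ℤ) :
    MvPolynomial (Fin w) k →ₐ[k] HahnSeries ℤ (FractionRing (MvPolynomial (Fin w) k)) :=
  aeval fun i => HahnSeries.single (a i)
    (algebraMap (MvPolynomial (Fin w) k) (FractionRing (MvPolynomial (Fin w) k)) (X i))

theorem prod_single {F : Type*} [Field F] (s : Finset (Fin w)) (n : Fin w → ℤ) (x : Fin w → F) :
    ∏ i ∈ s, HahnSeries.single (n i) (x i) = HahnSeries.single (∑ i ∈ s, n i) (∏ i ∈ s, x i) := by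
  classical
  induction s using Finset.induction_on with
  | empty => simp
  | insert i s hi ih =>
    rw [Finset.prod_insert hi, Finset.sum_insert hi, Finset.prod_insert hi, ih,
      HahnSeries.single_mul_single]

theorem sub0_monomial (m : Fin w →₀ ℕ) (c : k) :
    sub0 k a (monomial m c) = HahnSeries.single (∑ i, (m i : ℤ) * a i)
      (algebraMap (MvPolynomial (Fin w) k) (FractionRing (MvPolynomial (Fin w) k))
        (monomial m c)) := by
  rw [sub0, aeval_monomial, Finsupp.prod_fintype _ _ (fun i => pow_zero _), monomial_eq,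
    Finsupp.prod_fintype _ _ (fun i => pow_zero _), map_mul, map_prod]
  simp only [HahnSeries.single_pow, map_pow]
  rw [prod_single, algMap, HahnSeries.C_apply, HahnSeries.single_mul_single,
    zero_add]
  simp only [nsmul_eq_mul]
  rfl

theorem sub0_coeff (q : MvPolynomial (Fin w) k) (n : ℤ) :
    (sub0 k a q).coeff n = algebraMap (MvPolynomial (Fin w) k)
      (FractionRing (MvPolynomial (Fin w) k))
      (∑ m ∈ q.support.filter (fun m => ∑ i, (m i : ℤ) * a i = n), monomial m (q.coeff m)) := by
  classical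
  conv_lhs => rw [← support_sum_monomial_coeff q]
  rw [map_sum, HahnSeries.coeff_sum, map_sum, Finset.sum_filter]
  refine Finset.sum_congr rfl fun m _ => ?_
  rw [sub0_monomial, HahnSeries.coeff_single]
  split_ifs with h1 h2 h2
  · rfl
  · exact absurd h1.symm h2
  · exact absurd h2.symm h1
  · rfl

theorem sub0_order {q : MvPolynomial (Fin w) k} (hq : q ≠ 0) :
    sub0 k a q ≠ 0 ∧ ∃ m ∈ q.support, (sub0 k a q).order = ∑ i, (m i : ℤ) * a i ∧
      ∀ m' ∈ q.support, ∑ i, (m i : ℤ) * a i ≤ ∑ i, (m' i : ℤ) * a i := by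
  classical
  obtain ⟨m, hm, hmin⟩ := Finset.exists_min_image q.support
    (fun m => ∑ i, (m i : ℤ) * a i) (support_nonempty.2 hq)
  have h1 : (sub0 k a q).coeff (∑ i, (m i : ℤ) * a i) ≠ 0 := by
    rw [sub0_coeff, Ne, map_eq_zero_iff _ (IsFractionRing.injective _ _)]
    intro h0
    have h2 := congrArg (coeff m) h0
    rw [coeff_sum, coeff_zero] at h2
    have h3 : ∑ m' ∈ q.support.filter (fun m' => ∑ i, (m' i : ℤ) * a i = ∑ i, (m i : ℤ) * a i),
        coeff m (monomial m' (coeff m' q)) = coeff m q := by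
      rw [Finset.sum_eq_single m]
      · rw [coeff_monomial, if_pos rfl]
      · intro m' _ hne
        rw [coeff_monomial, if_neg hne]
      · intro hm'
        exact (hm' (Finset.mem_filter.2 ⟨hm, rfl⟩)).elim
    rw [h3] at h2
    exact (mem_support_iff.1 hm) h2
  have h0 : sub0 k a q ≠ 0 := by
    intro h; rw [h] at h1; exact h1 rfl
  refine ⟨h0, m, hm, le_antisymm (HahnSeries.order_le_of_coeff_ne_zero h1) ?_, hmin⟩
  by_contra hlt
  push Not at hlt
  have h3 : (sub0 k a q).coeff (sub0 k a q).order ≠ 0 := fun h => h0 (HahnSeries.coeff_order_eq_zero.1 h)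
  apply h3
  rw [sub0_coeff]
  have h4 : q.support.filter (fun m => ∑ i, (m i : ℤ) * a i = (sub0 k a q).order) = ∅ := by
    rw [Finset.filter_eq_empty_iff]
    intro m' hm' h5
    have := hmin m' hm'
    omega
  rw [h4, Finset.sum_empty, map_zero]

/-- Toric places. -/
theorem exists_toric {K1 : Type*} [Field K1] [Algebra k K1] (β : MvPolynomial (Fin w) k → K1)
    (ρ : K1 →ₐ[k] FractionRing (MvPolynomial (Fin w) k))
    (hρ : ∀ q, ρ (β q) = algebraMap _ _ q) (ha : ∃ i, a i ≠ 0) :
    ∃ (c : ℕ) (w0 : Place k K1), 0 < c ∧ ∀ q : MvPolynomial (Fin w) k, q ≠ 0 →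
      ∃ m ∈ q.support, (c : ℤ) * w0.ord (β q) = ∑ i, (m i : ℤ) * a i ∧
        ∀ m' ∈ q.support, ∑ i, (m i : ℤ) * a i ≤ ∑ i, (m' i : ℤ) * a i := by
  classical
  have hinj : Function.Injective (sub0 k a) := by
    rw [injective_iff_map_eq_zero]
    intro q hq
    by_contra h
    exact (sub0_order a h).1 hq
  let ι1 : FractionRing (MvPolynomial (Fin w) k) →ₐ[k]
    HahnSeries ℤ (FractionRing (MvPolynomial (Fin w) k)) := IsFractionRing.liftAlgHom hinj
  have hι1 : ∀ q, ι1 (algebraMap _ _ q) = sub0 k a q := by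
    intro q
    exact IsFractionRing.lift_algebraMap hinj q
  have hall : ∀ q : MvPolynomial (Fin w) k, q ≠ 0 → ∃ m ∈ q.support,
      (hsPlace k (FractionRing (MvPolynomial (Fin w) k))).ord ((ι1.comp ρ) (β q)) =
        ∑ i, (m i : ℤ) * a i ∧ ∀ m' ∈ q.support, ∑ i, (m i : ℤ) * a i ≤ ∑ i, (m' i : ℤ) * a i := by
    intro q hq
    obtain ⟨-, m, hm, h1, h2⟩ := sub0_order a hq
    refine ⟨m, hm, ?_, h2⟩
    rw [AlgHom.comp_apply, hρ, hι1]
    exact h1
  obtain ⟨i, hi⟩ := ha
  obtain ⟨c, w0, hc, hw0⟩ := exists_under (ι1.comp ρ)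
    (hsPlace k (FractionRing (MvPolynomial (Fin w) k))) ⟨β (X i), by
      obtain ⟨m, hm, h1, -⟩ := hall (X i) (X_ne_zero i)
      rw [h1]
      rw [mem_support_iff, coeff_X] at hm
      have hm' : Finsupp.single i 1 = m := by
        by_contra h
        rw [if_neg h] at hm
        exact hm rfl
      rw [← hm', Finset.sum_eq_single i]
      · simpa using hi
      · intro j _ hj
        rw [Finsupp.single_eq_of_ne hj]; simp
      · intro h; exact absurd (Finset.mem_univ i) h⟩
  refine ⟨c, w0, hc, fun q hq => ?_⟩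
  obtain ⟨m, hm, h1, h2⟩ := hall q hq
  exact ⟨m, hm, by rw [← hw0]; exact h1, h2⟩

end toric

end Pool.Agent.N592.GF
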