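import Pool.Agent.N754.GF.Stm
import Pool.Agent.N592.GF.TORB

/-!
Project GF (helper754), job TOR (helper592): the equation of a function which is regular at the
toric places.
-/

set_option autoImplicit false

open MvPolynomial FF

namespace Pool.Agent.N592.GF

open Pool.Agent.N754.GF

/-- The field is finite over the rational function field. -/
theorem finite_over {k K : Type} [Field k] [Field K] [Algebra k K] (T : Finset K)
    (hT : IntermediateField.adjoin k (T : Set K) = ⊤) {w : ℕ} (hw : Algebra.trdeg k K = w)
    {b : Fin w → K} (hb : AlgebraicIndependent k b) :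
    FiniteDimensional (IntermediateField.adjoin k (Set.range b)) K := by
  have htb : IsTranscendenceBasis k b := by
    apply hb.isTranscendenceBasis_of_lift_trdeg_le_of_finite
    rw [hw]
    simp
  have halg : Algebra.IsAlgebraic (IntermediateField.adjoin k (Set.range b)) K :=
    htb.isAlgebraic_field
  have h1 : FiniteDimensional (IntermediateField.adjoin k (Set.range b))
      (IntermediateField.adjoin (IntermediateField.adjoin k (Set.range b)) (T : Set K)) :=
    IntermediateField.finiteDimensional_adjoin fun x _ => (halg.isAlgebraic x).isIntegral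
  have h2 : IntermediateField.adjoin (IntermediateField.adjoin k (Set.range b)) (T : Set K) = ⊤ := by
    rw [eq_top_iff]
    intro x _
    have h3 : IntermediateField.adjoin k (T : Set K) ≤ (IntermediateField.adjoin
        (IntermediateField.adjoin k (Set.range b)) (T : Set K)).restrictScalars k := by
      rw [IntermediateField.adjoin_le_iff]
      exact IntermediateField.subset_adjoin _ _
    rw [hT] at h3
    exact h3 (IntermediateField.mem_top)
  rw [h2] at h1
  exact Module.Finite.equiv (IntermediateField.topEquiv (F := IntermediateField.adjoin k (Set.range b))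
    (E := K)).toLinearEquiv

/-- The equation of a function which is regular at the toric places. -/
theorem tor : S_TOR := by
  classical
  intro k K _ _ _ _ T hT w hw b hb g hg
  have hfin := finite_over T hT hw hb
  set K1 := IntermediateField.adjoin k (Set.range b) with hK1
  -- the elements of the subfield
  let β : MvPolynomial (Fin w) k → K1 := fun q => hb.aevalEquivField (algebraMap _ _ q)
  have hβ : ∀ q, ((β q : K1) : K) = aeval b q := fun q =>
    hb.aevalEquivField_algebraMap_apply_coe q
  have hρ : ∀ q, hb.reprField (β q) = algebraMap _ _ q := fun q =>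
    hb.aevalEquivField.symm_apply_apply _
  have hβ0 : ∀ q, q ≠ 0 → β q ≠ 0 := by
    intro q hq h
    have h1 := hρ q
    rw [h, map_zero] at h1
    exact hq ((map_eq_zero_iff _ (IsFractionRing.injective (MvPolynomial (Fin w) k) _)).1 h1.symm)
  have hβmul : ∀ p q, β (p * q) = β p * β q := by
    intro p q
    simp only [β, map_mul]
  -- common denominator of the coefficients of the minimal polynomial
  set P := minpoly K1 g with hP
  have hint : IsIntegral K1 g := Algebra.IsIntegral.isIntegral g
  have hmon : P.Monic := minpoly.monic hint
  obtain ⟨⟨q, hq⟩, hqc⟩ := IsLocalization.exist_integer_multiples_of_finset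
    (nonZeroDivisors (MvPolynomial (Fin w) k)) ((Finset.range P.natDegree).image fun i =>
      hb.reprField (P.coeff i))
  have hq0 : q ≠ 0 := nonZeroDivisors.ne_zero hq
  have hcoef : ∀ i : Fin P.natDegree, ∃ p : MvPolynomial (Fin w) k, β p = β q * P.coeff i := by
    intro i
    obtain ⟨p, hp⟩ := hqc _ (Finset.mem_image_of_mem _ (Finset.mem_range.2 i.2))
    refine ⟨p, ?_⟩
    apply hb.reprField.toRingHom.injective
    change hb.reprField (β p) = hb.reprField (β q * P.coeff i)
    rw [map_mul, hρ, hρ]
    rw [hp]
    simp only [Algebra.smul_def]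
  choose p hp using hcoef
  refine ⟨P.natDegree, q, p, hq0, ?_, ?_⟩
  · have h1 : Polynomial.aeval g P = 0 := minpoly.aeval K1 g
    rw [hmon.as_sum, map_add, map_pow, Polynomial.aeval_X, map_sum] at h1
    have h2 : ∀ i : Fin P.natDegree, aeval b (p i) * g ^ (i : ℕ) =
        aeval b q * Polynomial.aeval g (Polynomial.C (P.coeff i) * Polynomial.X ^ (i : ℕ)) := by
      intro i
      rw [← hβ, hp i, map_mul, Polynomial.aeval_C, map_pow, Polynomial.aeval_X]
      rw [← hβ q]
      change ((β q : K1) : K) * ((P.coeff i : K1) : K) * g ^ (i : ℕ) = _
      rw [mul_assoc]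
      rfl
    rw [Finset.sum_congr rfl fun i _ => h2 i, ← Finset.mul_sum, ← mul_add,
      Fin.sum_univ_eq_sum_range (fun i => Polynomial.aeval g (Polynomial.C (P.coeff i) *
        Polynomial.X ^ i)) P.natDegree, h1, mul_zero]
  · intro a i m hm
    by_cases ha : ∃ j, a j ≠ 0
    · obtain ⟨c, w0, hc, hw0⟩ := exists_toric a β hb.reprField hρ ha
      have hc' : (0 : ℤ) < c := by exact_mod_cast hc
      -- the orders of the variables
      have hX : ∀ j, (c : ℤ) * w0.ord (β (X j)) = a j := by
        intro j
        obtain ⟨m0, hm0, h1, -⟩ := hw0 (X j) (X_ne_zero j)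
        rw [h1]
        rw [mem_support_iff, coeff_X] at hm0
        have hm' : Finsupp.single j 1 = m0 := by
          by_contra h
          rw [if_neg h] at hm0
          exact hm0 rfl
        rw [← hm', Finset.sum_eq_single j]
        · simp
        · intro l _ hl
          rw [Finsupp.single_eq_of_ne hl]; simp
        · intro h; exact absurd (Finset.mem_univ j) h
      have hregs : ∀ i, w0.Reg (P.coeff i) := by
        apply coeff_reg w0 g
        intro v e hv
        apply hg v
        have he : (0 : ℤ) < e := by exact_mod_cast hv.1
        have hvb : ∀ q', v.ord (aeval b q') = e * w0.ord (β q') := by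
          intro q'
          rw [← hβ, ← hv.2]
          rfl
        have hvX : ∀ j, v.ord (b j) = e * w0.ord (β (X j)) := by
          intro j
          rw [← hvb, aeval_X]
        have hsum : ∀ m : Fin w →₀ ℕ, (c : ℤ) * ∑ j, (m j : ℤ) * v.ord (b j) =
            e * ∑ j, (m j : ℤ) * a j := by
          intro m
          rw [Finset.mul_sum, Finset.mul_sum]
          refine Finset.sum_congr rfl fun j _ => ?_
          rw [hvX, ← hX j]
          ring
        refine ⟨?_, ?_⟩
        · obtain ⟨j, hj⟩ := ha
          refine ⟨j, ?_⟩
          rw [hvX]
          intro h0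
          rcases mul_eq_zero.1 h0 with h | h
          · omega
          · apply hj
            rw [← hX j, h, mul_zero]
        · intro q' hq'
          obtain ⟨m0, hm0, h1, h2⟩ := hw0 q' hq'
          refine ⟨m0, hm0, ?_, ?_⟩
          · apply mul_left_cancel₀ hc'.ne'
            rw [hsum, hvb, ← h1]
            ring
          · intro m' hm'
            have h3 := h2 m' hm'
            have h4 := mul_le_mul_of_nonneg_left h3 he.le
            rw [← hsum, ← hsum] at h4
            exact le_of_mul_le_mul_left h4 hc'
      obtain ⟨m', hm', h1, h2⟩ := hw0 q hq0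
      refine ⟨m', hm', ?_⟩
      have hpi0 : p i ≠ 0 := by
        intro h
        rw [h] at hm
        simp at hm
      obtain ⟨m1, hm1, h3, h4⟩ := hw0 (p i) hpi0
      have hci : P.coeff i ≠ 0 := by
        intro h
        have h5 := hp i
        rw [h, mul_zero] at h5
        exact hβ0 _ hpi0 h5
      have h6 : w0.ord (β (p i)) = w0.ord (β q) + w0.ord (P.coeff i) := by
        rw [hp i, w0.ord_mul (hβ0 q hq0) hci]
      have h7 : 0 ≤ w0.ord (P.coeff i) := (w0.reg_iff hci).1 (hregs i)
      have h8 : (c : ℤ) * w0.ord (β q) ≤ c * w0.ord (β (p i)) := by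
        apply mul_le_mul_of_nonneg_left _ hc'.le
        omega
      have h9 := h4 m hm
      rw [h1, h3] at h8
      exact h8.trans h9
    · push Not at ha
      obtain ⟨m', hm'⟩ := support_nonempty.2 hq0
      refine ⟨m', hm', ?_⟩
      simp [ha]

end Pool.Agent.N592.GF
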