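import Pool.Agent.Helper386.D5V.Helper399_FF4b

/-!
Project GF (helper754), job TOR, first part (helper592): functions regular at all places over a
place are integral over its valuation ring; toric places of rational function fields.
-/

set_option autoImplicit false

open MvPolynomial FF IsDedekindDomain

namespace Pool.Agent.N592.GF

section integral

variable {k K1 K : Type*} [Field k] [Field K1] [Field K] [Algebra k K1] [Algebra k K]
  [Algebra K1 K] [IsScalarTower k K1 K]

/-- A function which is regular at all places over a place is integral over the valuation ring. -/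
theorem coeff_reg [CharZero k] [FiniteDimensional K1 K] (w0 : Place k K1) (g : K)
    (hg : ∀ (w : Place k K) (e : ℕ), Over w w0 e → w.Reg g) (i : ℕ) :
    w0.Reg ((minpoly K1 g).coeff i) := by
  classical
  obtain ⟨t, ht0, ht⟩ := w0.surj
  have htr : w0.Reg t := Or.inr (by omega)
  have : IsDiscreteValuationRing w0.O := w0.isDVR
  have : CharZero K1 := charZero_of_injective_algebraMap (algebraMap k K1).injective
  let iA : Algebra w0.O K := ((algebraMap K1 K).comp w0.O.subtype).toAlgebra
  let ik : Algebra k w0.O := ((algebraMap k K1).codRestrict w0.O (fun c => w0.reg_const c)).toAlgebra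
  have : IsScalarTower w0.O K1 K := IsScalarTower.of_algebraMap_eq fun _ => rfl
  have hkOK : IsScalarTower k w0.O K := IsScalarTower.of_algebraMap_eq fun c => by
    rw [IsScalarTower.algebraMap_apply k K1 K]
    rfl
  let B := integralClosure w0.O K
  have : IsDedekindDomain B := integralClosure.isDedekindDomain w0.O K1 K
  have : IsFractionRing B K := integralClosure.isFractionRing_of_finite_extension K1 K
  have hsc : IsScalarTower k B K := by
    refine IsScalarTower.of_algebraMap_eq fun c => ?_
    rw [IsScalarTower.algebraMap_apply k w0.O B, ← IsScalarTower.algebraMap_apply w0.O B K,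
      ← IsScalarTower.algebraMap_apply k w0.O K]
  -- the places of the integral closure lie over the given place
  have hover : ∀ P : HeightOneSpectrum B, (placeOf (k := k) (L := K) P).Reg g := by
    intro P
    have hreg : ∀ f : K1, w0.Reg f → (placeOf (k := k) (L := K) P).Reg (algebraMap K1 K f) := by
      intro f hf
      have h1 := placeOf_reg (k := k) (L := K) P (algebraMap w0.O B ⟨f, hf⟩)
      rw [← IsScalarTower.algebraMap_apply w0.O B K] at h1
      exact h1
    have hpos : 0 < (placeOf (k := k) (L := K) P).ord (algebraMap K1 K t) := by
      have ht0' : algebraMap K1 K t ≠ 0 := (map_ne_zero _).2 ht0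
      have h1 := ((Place.reg_iff _ ht0').1 (hreg t htr))
      rcases h1.lt_or_eq with h2 | h2
      · exact h2
      · exfalso
        -- then the place is trivial on the subfield
        have hz : ∀ f : K1, f ≠ 0 → (placeOf (k := k) (L := K) P).ord (algebraMap K1 K f) = 0 := by
          intro f hf
          have hu : w0.ord (f * t ^ (-(w0.ord f))) = 0 := by
            rw [w0.ord_mul hf (zpow_ne_zero _ ht0), w0.ord_zpow, ht]; ring
          have hu0 : f * t ^ (-(w0.ord f)) ≠ 0 := mul_ne_zero hf (zpow_ne_zero _ ht0)
          have h3 := hreg _ (Or.inr hu.ge)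
          have h4 := hreg (f * t ^ (-(w0.ord f)))⁻¹ (Or.inr (by rw [w0.ord_inv, hu]; simp))
          rw [map_inv₀] at h4
          have hu0' : algebraMap K1 K (f * t ^ (-(w0.ord f))) ≠ 0 := (map_ne_zero _).2 hu0
          rw [Place.reg_iff _ hu0'] at h3
          rw [Place.reg_iff _ (inv_ne_zero hu0'), Place.ord_inv] at h4
          have h5 : (placeOf (k := k) (L := K) P).ord (algebraMap K1 K (f * t ^ (-(w0.ord f)))) = 0 := by
            omega
          rw [map_mul, map_zpow₀, Place.ord_mul _ ((map_ne_zero _).2 hf) (zpow_ne_zero _ ht0'),
            Place.ord_zpow, ← h2, mul_zero, add_zero] at h5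
          exact h5
        -- the elements of the ring are integral, so units
        obtain ⟨b, hbP, hb0⟩ : ∃ b ∈ P.asIdeal, b ≠ 0 := by
          by_contra hcon
          push Not at hcon
          exact P.ne_bot ((Submodule.eq_bot_iff _).2 hcon)
        have hbint : IsIntegral w0.O (b : K) := b.2
        have hbK : IsIntegral K1 (b : K) := hbint.tower_top
        have hb0' : (b : K) ≠ 0 := fun h => hb0 (Subtype.ext h)
        have hbord : 0 < (placeOf (k := k) (L := K) P).ord (b : K) := by
          have h6 : (placeOf (k := k) (L := K) P).red (algebraMap B K b) = 0 :=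
            (placeOf_red_eq_zero (k := k) (L := K) P b).2 hbP
          rw [Place.red_eq_zero_iff _ (placeOf_reg P b)] at h6
          rcases h6 with h6 | h6
          · exact absurd h6 hb0'
          · exact h6
        -- the inverse is integral over K1 with coefficients of order zero
        have hinv : IsIntegral K1 ((b : K)⁻¹) := hbK.inv
        have h7 : (placeOf (k := k) (L := K) P).Reg ((b : K)⁻¹) := by
          refine Place.reg_of_isIntegral (A := K1) _ (fun f => ?_) hinv
          by_cases hf : f = 0
          · left; rw [hf, map_zero]
          · right; rw [hz f hf]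
        rw [Place.reg_iff _ (inv_ne_zero hb0'), Place.ord_inv] at h7
        omega
    exact hg _ _ (over_of_reg _ w0 t ht0 ht hreg hpos)
  have hgB : ∃ b : B, algebraMap B K b = g := by
    have h1 := HeightOneSpectrum.mem_integers_of_valuation_le_one (R := B) K g (by
      intro P
      by_cases hg0 : g = 0
      · rw [hg0, map_zero]; exact zero_le_one
      · exact (placeOf_nonneg (k := k) (L := K) P hg0).1 ((Place.reg_iff _ hg0).1 (hover P)))
    exact h1
  obtain ⟨b, rfl⟩ := hgB
  have hint : IsIntegral w0.O (algebraMap B K b) := b.2
  rw [minpoly.isIntegrallyClosed_eq_field_fractions' K1 hint, Polynomial.coeff_map]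
  exact ((minpoly w0.O (algebraMap B K b)).coeff i).2

end integral

/-- The restriction of a place. -/
theorem exists_under {k K L : Type*} [Field k] [Field K] [Field L] [Algebra k K] [Algebra k L]
    (ι : K →ₐ[k] L) (w : Place k L) (h : ∃ f, w.ord (ι f) ≠ 0) :
    ∃ (e : ℕ) (w0 : Place k K), 0 < e ∧ ∀ f, w.ord (ι f) = e * w0.ord f := by
  let _ := ι.toRingHom.toAlgebra
  have : IsScalarTower k K L := IsScalarTower.of_algebraMap_eq fun c => (ι.commutes c).symm
  obtain ⟨e, w0, h0⟩ := exists_over (K := K) w h
  exact ⟨e, w0, h0.1, h0.2⟩

end Pool.Agent.N592.GF
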